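import Pool.Agent.H82.KT.TR

/-!
# KNU: the numerical contradiction, two ends
-/

set_option autoImplicit false

namespace Pool.Agent.H70.KT

open Pool.Agent.H82.KT

/-- the inequalities for the exponents -/
theorem core (m lam l4 tau mu be nu Qv q al ph : ℝ) (hm : 5 ≤ m) (hl0 : 0 < l4)
    (hl : l4 ≤ lam) (hL : lam ≤ 1 / 1000) (hbe : 0 ≤ be)
    (h1 : q + mu ≤ l4 + tau + nu) (h2 : Qv ≤ lam + q) (h3 : mu + nu ≤ lam + Qv)
    (h6 : tau + be + (m + 2) / 2 ≤ lam + (2 * al + (m + 2))) (h7 : - al ≤ lam)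
    (h9 : ph + be ≤ lam + (2 * al + 2))
    (H : 3 * m + 17 < (4 * m - 17) * (nu - 1 / 2) + 14 * (mu - 2 * al)) :
    lam ≤ (nu - 1 / 2) * 2 + 1 / 2 ∧
      lam + ((Qv - 1 / 2) * 7 + ph) < tau * 4 + (nu - 1 / 2) * (2 * m + 24) := by
  have lam0 : 0 < lam := lt_of_lt_of_le hl0 hl
  obtain ⟨k, hk⟩ : ∃ k, k = nu - 1 / 2 := ⟨_, rfl⟩
  rw [← hk] at H ⊢
  have h4 : 2 * mu ≤ tau + 3 * lam := by linarith
  have h5 : mu - 2 * al ≤ (m + 2) / 4 + 3 * lam := by linarith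
  constructor
  · by_contra hc
    push Not at hc
    have e1 : k ≤ -1 / 8 - 14 * lam := by linarith
    have e2 : (4 * m - 17) * k ≤ (4 * m - 17) * (-1 / 8 - 14 * lam) :=
      mul_le_mul_of_nonneg_left e1 (by linarith)
    have e3 : 5 * lam ≤ m * lam := mul_le_mul_of_nonneg_right hm lam0.le
    linarith
  · by_contra hc
    push Not at hc
    have e1 : Qv - 1 / 2 ≤ 2 * lam + tau + k - mu := by rw [hk]; linarith
    have e5 : 7 * mu ≤ 15 * lam + 3 * tau - (2 * m + 17) * k + ph := by linarith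
    have e6 : 2 * (4 * m - 17) * (7 * mu) ≤
        2 * (4 * m - 17) * (15 * lam + 3 * tau - (2 * m + 17) * k + ph) :=
      mul_le_mul_of_nonneg_left e5 (by linarith)
    have e7 : 357 * (2 * mu) ≤ 357 * (tau + 3 * lam) := by linarith
    have e8 : (4 * m + 34) * (3 * m + 17) <
        (4 * m + 34) * ((4 * m - 17) * k + 14 * (mu - 2 * al)) :=
      mul_lt_mul_of_pos_left H (by linarith)
    have e9 : (24 * m + 255) * tau ≤ (24 * m + 255) * (lam + 2 * al + (m + 2) / 2) :=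
      mul_le_mul_of_nonneg_left (by linarith) (by linarith)
    have e10 : 2 * (4 * m - 17) * ph ≤ 2 * (4 * m - 17) * (lam + 2 * al + 2) :=
      mul_le_mul_of_nonneg_left (by linarith) (by linarith)
    have e11 : (48 * m + 510) * (-al) ≤ (48 * m + 510) * lam :=
      mul_le_mul_of_nonneg_left h7 (by linarith)
    have e12 : m * lam ≤ m * (1 / 1000) := mul_le_mul_of_nonneg_left hL (by linarith)
    linarith

theorem pf_KNU : T_KNU := by
  intro m hm5 R Λ t M b n Q q₄ a A f x hR1' h4Λ hΛR ht hM hb hn hQ hq₄ ha hA hf hx H1 H2 H3 H6 H7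
    H8 H9 H10
  obtain ⟨mr, hmr⟩ : ∃ x : ℝ, x = m := ⟨_, rfl⟩
  have hm : 5 ≤ mr := by
    rw [hmr]
    exact_mod_cast hm5
  have hR1 : 1 < R := by
    rcases hR1'.lt_or_eq with h | h
    · exact h
    · exfalso
      rw [← h, Real.one_rpow] at hΛR
      linarith
  have hR0 : 0 < R := by linarith
  have hex : ∀ X : ℝ, 0 < X → ∃ ξ : ℝ, X = R ^ ξ := fun X hX =>
    ⟨Real.logb R X, (Real.rpow_logb hR0 (ne_of_gt hR1) hX).symm⟩
  have hle : ∀ y z : ℝ, R ^ y ≤ R ^ z ↔ y ≤ z := fun y z => Real.rpow_le_rpow_left_iff hR1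
  have hlt : ∀ y z : ℝ, R ^ y < R ^ z ↔ y < z := fun y z => Real.rpow_lt_rpow_left_iff hR1
  have had : ∀ y z : ℝ, R ^ y * R ^ z = R ^ (y + z) := fun y z => (Real.rpow_add hR0 y z).symm
  have hsu : ∀ y z : ℝ, R ^ y / R ^ z = R ^ (y - z) := fun y z => (Real.rpow_sub hR0 y z).symm
  have hmu : ∀ y z : ℝ, (R ^ y) ^ z = R ^ (y * z) := fun y z => (Real.rpow_mul hR0.le y z).symm
  have hpo : ∀ (y : ℝ) (k : ℕ), (R ^ y) ^ k = R ^ (y * k) := fun y k => by
    rw [← Real.rpow_natCast, hmu]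
  have hsq : Real.sqrt R = R ^ (1 / 2 : ℝ) := Real.sqrt_eq_rpow R
  have hone : (1 : ℝ) = R ^ (0 : ℝ) := (Real.rpow_zero R).symm
  have hR2 : R ^ 2 = R ^ (2 : ℝ) := by
    rw [← Real.rpow_natCast]
    norm_num
  obtain ⟨l4, e4⟩ := hex 4 (by norm_num)
  obtain ⟨lam, eΛ⟩ := hex Λ (by linarith)
  obtain ⟨tau, et⟩ := hex t ht
  obtain ⟨mu, eM⟩ := hex M (by linarith)
  obtain ⟨be, eb⟩ := hex b (by linarith)
  obtain ⟨nu, en⟩ := hex n hn
  obtain ⟨Qv, eQ⟩ := hex Q hQ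
  obtain ⟨q, eq⟩ := hex q₄ hq₄
  obtain ⟨α, ea⟩ := hex a ha
  obtain ⟨β, eA⟩ := hex A hA
  obtain ⟨ph, ef⟩ := hex f hf
  have g0 : 0 < l4 := by
    have : R ^ (0 : ℝ) < R ^ l4 := by
      rw [← e4, Real.rpow_zero]
      norm_num
    exact (hlt _ _).1 this
  have g1 : l4 ≤ lam := by
    rw [e4, eΛ] at h4Λ
    exact (hle _ _).1 h4Λ
  have g2 : lam ≤ 1 / 1000 := by
    rw [eΛ] at hΛR
    exact (hle _ _).1 hΛR
  have g4 : 0 ≤ be := by
    rw [hone, eb] at hb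
    exact (hle _ _).1 hb
  rw [e4, eq, eM, et, en, had, had, had, hle] at H1
  rw [eQ, eΛ, eq, had, hle] at H2
  rw [eM, en, eΛ, eQ, had, had, hle] at H3
  rw [et, eb, ea, eΛ, eA, hpo, hpo, had, had, had, had, had, hle] at H6
  rw [ea, eΛ, eA, had, hle] at H7
  rw [en, eΛ, hsq, had, hle] at H8
  rw [ef, eb, ea, eΛ, eA, hR2, hpo, hpo, had, had, had, had, hle] at H9
  rw [en, eM, ea, eA, hsq, hpo, hpo, had, hsu, hsu, hmu, hmu, had, hlt] at H10
  push_cast at H6 H9 H10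
  rw [← hmr] at H6 H10 hx
  have hN : 0 < 11 * mr - 17 := by linarith
  have hxN : x * (11 * mr - 17) = 28 := by
    rw [hx]
    field_simp
  have H : 3 * mr + 17 < (4 * mr - 17) * (nu - 1 / 2) + 14 * (mu - 2 * (β - α)) := by
    have e1 := mul_lt_mul_of_pos_right H10 hN
    have e2 : (mr * x / 2 - 1) * (11 * mr - 17) = 3 * mr + 17 := by
      have : (mr * x / 2 - 1) * (11 * mr - 17) = mr / 2 * (x * (11 * mr - 17)) -
          (11 * mr - 17) := by ring
      rw [this, hxN]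
      ring
    have e3 : ((nu - 1 / 2) * (1 - mr * x / 4) + (mu + α * 2 - β * 2) * (x / 2)) *
        (11 * mr - 17) = (4 * mr - 17) * (nu - 1 / 2) + 14 * (mu - 2 * (β - α)) := by
      have : ((nu - 1 / 2) * (1 - mr * x / 4) + (mu + α * 2 - β * 2) * (x / 2)) *
        (11 * mr - 17) = (nu - 1 / 2) * ((11 * mr - 17) - mr / 4 * (x * (11 * mr - 17))) +
          (mu + α * 2 - β * 2) / 2 * (x * (11 * mr - 17)) := by ring
      rw [this, hxN]
      ring
    rw [e2, e3] at e1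
    exact e1
  obtain ⟨r1, r2⟩ := core mr lam l4 tau mu be nu Qv q (β - α) ph hm g0 g1 g2 g4 H1 H2 H3
    (by linarith) (by linarith) (by linarith) H
  constructor
  · rw [eΛ, en, hsq, hsu, hpo, had, hle]
    push_cast
    linarith
  · rw [eΛ, eQ, hsq, hsu, hpo, ef, had, had, et, en, hsu, hpo, hpo, had, hlt]
    push_cast
    rw [← hmr]
    linarith

end Pool.Agent.H70.KT
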