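import Pool.Agent.H11.KT.Targets

/-! Board `elk_modules`, row P_MX (helper70): the words `rw m c` have property `MA`. -/

set_option autoImplicit false

namespace Pool.Agent.H70.KT

open Pool.Agent.H11.EL Pool.Agent.H11.KT
open scoped commutatorElement

theorem lift_comm {H : Type} [Group H] {m : ℕ} (f : Fin m → H)
    (hf : ∀ i j, Commute (f i) (f j)) (c : FreeGroup (Fin m))
    (hc : c ∈ commutator (FreeGroup (Fin m))) : FreeGroup.lift f c = 1 := by
  have h1 : ∀ (a : FreeGroup (Fin m)) (j : Fin m), Commute (FreeGroup.lift f a) (f j) := by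
    intro a j
    induction a using FreeGroup.induction_on with
    | C1 => rw [map_one]; exact Commute.one_left _
    | of i => rw [FreeGroup.lift_apply_of]; exact hf i j
    | inv_of i h => rw [map_inv]; exact Commute.inv_left h
    | mul x y hx hy => rw [map_mul]; exact Commute.mul_left hx hy
  have h2 : ∀ a b : FreeGroup (Fin m), Commute (FreeGroup.lift f a) (FreeGroup.lift f b) := by
    intro a b
    induction b using FreeGroup.induction_on with
    | C1 => rw [map_one]; exact Commute.one_right _
    | of i => rw [FreeGroup.lift_apply_of]; exact h1 a i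
    | inv_of i h => rw [map_inv]; exact Commute.inv_right h
    | mul x y hx hy => rw [map_mul]; exact Commute.mul_right hx hy
  have h3 : commutator (FreeGroup (Fin m)) ≤ (FreeGroup.lift f).ker := by
    rw [commutator_def, Subgroup.commutator_le]
    intro a _ b _
    rw [MonoidHom.mem_ker, map_commutatorElement, commutatorElement_eq_one_iff_commute]
    exact h2 a b
  exact h3 hc

theorem lift_rw {H : Type} [Group H] (m : ℕ) (c : FreeGroup (Fin m)) (x y : H) :
    FreeGroup.lift ![x, y] (rw m c) = ⁅y, x⁆ *
      FreeGroup.lift (fun i : Fin m => x ^ ((i : ℕ) + 1) * y * (x ^ ((i : ℕ) + 1))⁻¹) c := by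
  unfold rw
  rw [map_mul, map_commutatorElement, FreeGroup.lift_apply_of, FreeGroup.lift_apply_of]
  congr 1
  have h1 : (FreeGroup.lift ![x, y]).comp (FreeGroup.lift (fun i : Fin m =>
      (FreeGroup.of 0 : FreeGroup (Fin 2)) ^ ((i : ℕ) + 1) * FreeGroup.of 1 *
        (FreeGroup.of 0 ^ ((i : ℕ) + 1))⁻¹)) =
      FreeGroup.lift (fun i : Fin m => x ^ ((i : ℕ) + 1) * y * (x ^ ((i : ℕ) + 1))⁻¹) := by
    apply FreeGroup.ext_hom
    intro i
    rw [MonoidHom.comp_apply, FreeGroup.lift_apply_of, FreeGroup.lift_apply_of, map_mul, map_mul,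
      map_inv, map_pow, FreeGroup.lift_apply_of, FreeGroup.lift_apply_of]
    rfl
  exact DFunLike.congr_fun h1 c

/-- **P_MX** -/
theorem pf_MX : P_MX := by
  intro m c hc H _ hH hlaw
  have hder : ∀ a ∈ commutator H, ∀ b ∈ commutator H, Commute a b := by
    intro a ha b hb
    have h1 : ⁅a, b⁆ ∈ derivedSeries H 2 := by
      rw [derivedSeries_succ, derivedSeries_one]
      exact Subgroup.commutator_mem_commutator ha hb
    rw [hH, Subgroup.mem_bot, commutatorElement_eq_one_iff_commute] at h1
    exact h1
  have hlaw' : ∀ x y : H, (∀ i j : ℕ, Commute (x ^ i * y * (x ^ i)⁻¹) (x ^ j * y * (x ^ j)⁻¹)) →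
      Commute y x := by
    intro x y h
    have h1 := hlaw ![x, y]
    rw [lift_rw, lift_comm _ (fun i j => h _ _) c hc, mul_one,
      commutatorElement_eq_one_iff_commute] at h1
    exact h1
  have hcen : ∀ y ∈ commutator H, ∀ x : H, Commute y x := by
    intro y hy x
    apply hlaw'
    intro i j
    exact hder _ (Subgroup.Normal.conj_mem inferInstance y hy _) _
      (Subgroup.Normal.conj_mem inferInstance y hy _)
  intro x y
  have h1 : Commute y x := by
    apply hlaw'
    intro i j
    have h2 : ∀ k : ℕ, x ^ k * y * (x ^ k)⁻¹ = ⁅x ^ k, y⁆ * y := by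
      intro k
      rw [commutatorElement_def]
      group
    have h3 : ∀ (k : ℕ) (z : H), Commute ⁅x ^ k, y⁆ z := by
      intro k z
      apply hcen
      rw [commutator_def]
      exact Subgroup.commutator_mem_commutator (Subgroup.mem_top _) (Subgroup.mem_top _)
    rw [h2, h2]
    exact Commute.mul_left (h3 i _) (Commute.mul_right (h3 j y).symm (Commute.refl y))
  exact h1.symm.eq

end Pool.Agent.H70.KT
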